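import Pool.Agent.P.MP_01f353_gt.Main

set_option autoImplicit false

namespace Pool.Agent.Results.MP_01f353_gt.CompactBorel

open Pool.Agent.P.MP_01f353_gt

/-- A nonempty compact subset of the plane which is paradoxical under plane isometries,
with sigma-compact (so Borel) pieces. -/
theorem result :
    ∃ E : Set (EuclideanSpace ℝ (Fin 2)), E.Nonempty ∧ IsCompact E ∧
      ∃ (n m : ℕ) (A : Fin n → Set (EuclideanSpace ℝ (Fin 2)))
        (B : Fin m → Set (EuclideanSpace ℝ (Fin 2)))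
        (g : Fin n → (EuclideanSpace ℝ (Fin 2) ≃ᵢ EuclideanSpace ℝ (Fin 2)))
        (h : Fin m → (EuclideanSpace ℝ (Fin 2) ≃ᵢ EuclideanSpace ℝ (Fin 2))),
        (∀ i, IsSigmaCompact (A i) ∧ MeasurableSet (A i)) ∧
        (∀ j, IsSigmaCompact (B j) ∧ MeasurableSet (B j)) ∧
        (∀ i, A i ⊆ E) ∧ (∀ j, B j ⊆ E) ∧
        Pairwise (Function.onFun Disjoint A) ∧
        Pairwise (Function.onFun Disjoint B) ∧
        (∀ i j, Disjoint (A i) (B j)) ∧
        (⋃ i, (g i) '' (A i)) = E ∧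
        (⋃ j, (h j) '' (B j)) = E := by
  obtain ⟨d⟩ := exists_data
  obtain ⟨A, g, h1, h2, h3, h4, h5⟩ := d.para
  let e : ℂ ≃ᵢ EuclideanSpace ℝ (Fin 2) := Complex.orthonormalBasisOneI.repr.toIsometryEquiv
  obtain ⟨n, ⟨q⟩⟩ := Finite.exists_equiv_fin (Bool × Bool × Bool × (Fin 8 → SignType))
  let w : Bool → Fin n → Mv := fun b i => ((q.symm i).1, b, (q.symm i).2)
  have hw : ∀ b b' i i', w b i = w b' i' → b = b' ∧ i = i' := fun b b' i i' h => by
    simp only [w, Prod.mk.injEq] at h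
    exact ⟨h.2.1, q.symm.injective (Prod.ext h.1 h.2.2)⟩
  have sc : ∀ v, IsSigmaCompact (e '' A v) ∧ MeasurableSet (e '' A v) := fun v => by
    have h6 := (h1 v).image e.continuous
    refine ⟨h6, ?_⟩
    obtain ⟨C, hC, hU⟩ := h6
    rw [← hU]
    exact MeasurableSet.iUnion fun k => (hC k).measurableSet
  have dj : ∀ v v', v ≠ v' → Disjoint (e '' A v) (e '' A v') := fun v v' h =>
    (Set.disjoint_image_iff e.injective).2 (h3 h)
  have cov : ∀ b, ⋃ i, ((e.symm.trans (g (w b i))).trans e) '' (e '' A (w b i)) = e '' d.K := by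
    intro b
    refine Set.Subset.antisymm (Set.iUnion_subset fun i => ?_) ?_
    · rintro _ ⟨_, ⟨z, hz, rfl⟩, rfl⟩
      exact ⟨g (w b i) z, h4 _ ⟨z, hz, rfl⟩, by simp⟩
    · rintro _ ⟨z, hz, rfl⟩
      obtain ⟨v, hv, y, hy, rfl⟩ := h5 b z hz
      have h7 : w b (q (v.1, v.2.2)) = v := by
        simp only [w, Equiv.symm_apply_apply, ← hv]
      refine Set.mem_iUnion.2 ⟨q (v.1, v.2.2), ?_⟩
      rw [h7]
      exact ⟨e y, ⟨y, hy, rfl⟩, by simp⟩
  exact ⟨e '' d.K, ⟨_, 0, d.K_zero, rfl⟩, d.K_compact.image e.continuous, n, n,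
    fun i => e '' A (w false i), fun i => e '' A (w true i),
    fun i => (e.symm.trans (g (w false i))).trans e, fun i => (e.symm.trans (g (w true i))).trans e,
    fun i => sc _, fun i => sc _, fun i => Set.image_mono (h2 _), fun i => Set.image_mono (h2 _),
    fun i i' h => dj _ _ fun h' => h (hw _ _ _ _ h').2,
    fun i i' h => dj _ _ fun h' => h (hw _ _ _ _ h').2,
    fun i i' => dj _ _ fun h' => Bool.false_ne_true (hw _ _ _ _ h').1, cov false, cov true⟩

end Pool.Agent.Results.MP_01f353_gt.CompactBorel
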